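import Pool.Agent.H85.KP.Iface

/-!
# Quadrature for typically real polynomials (module M1 of MP_6cc408_an)
-/

namespace Pool.Agent.H69.KP

open Polynomial Real Set Pool.Agent.H85.KP
open Polynomial.Chebyshev (U)

/-! ### Coefficients of the Chebyshev polynomials of the second kind -/

theorem coeffU_zero (n : ℤ) (m : ℕ) (h1 : -(m : ℤ) - 2 < n) (h2 : n < m) :
    (U ℝ n).coeff m = 0 := by
  by_cases hn : n = -1
  · subst hn; simp
  apply coeff_eq_zero_of_natDegree_lt
  rw [Chebyshev.natDegree_U]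
  omega

theorem coeffU_self (m : ℕ) : (U ℝ (m : ℤ)).coeff m = 2 ^ m := by
  have h := Chebyshev.leadingCoeff_U_natCast (R := ℝ) m
  rwa [leadingCoeff, Chebyshev.natDegree_U_natCast] at h

theorem coeffU_neg (m : ℕ) : (U ℝ (-(m : ℤ) - 2)).coeff m = -2 ^ m := by
  rw [Chebyshev.U_neg_sub_two, coeff_neg, coeffU_self]

/-! ### The two polynomials -/

/-- The polynomial whose value at `cos t` is `B(t)/sin t`. -/
noncomputable def Bq (l : ℕ) (a : ℝ) : ℝ[X] := U ℝ (l : ℤ) + C a * U ℝ ((l : ℤ) - 1)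

/-- The polynomial whose value at `cos t` is `(u B - v A)/sin t`. -/
noncomputable def gq (l : ℕ) (a : ℝ) (c : ℝ[X]) : ℝ[X] :=
  ∑ k ∈ Finset.range (2 * l + 1),
    C (c.coeff k) * (U ℝ ((l : ℤ) - k) + C a * U ℝ ((l : ℤ) - 1 - k))

theorem Bq_cos (l : ℕ) (a t : ℝ) :
    (Bq l a).eval (cos t) * sin t = sin ((l + 1) * t) + a * sin (l * t) := by
  unfold Bq
  rw [eval_add, eval_mul, eval_C, add_mul, mul_assoc, Chebyshev.U_real_cos, Chebyshev.U_real_cos]
  push_cast
  ring_nf

theorem pt_pow_re (t : ℝ) (k : ℕ) : ((pt t) ^ k).re = cos (k * t) := by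
  have : (pt t) ^ k = Complex.exp (((k * t : ℝ) : ℂ) * Complex.I) := by
    rw [pt, ← Complex.exp_nat_mul]; congr 1; push_cast; ring
  rw [this, Complex.exp_ofReal_mul_I_re]

theorem pt_pow_im (t : ℝ) (k : ℕ) : ((pt t) ^ k).im = sin (k * t) := by
  have : (pt t) ^ k = Complex.exp (((k * t : ℝ) : ℂ) * Complex.I) := by
    rw [pt, ← Complex.exp_nat_mul]; congr 1; push_cast; ring
  rw [this, Complex.exp_ofReal_mul_I_im]

theorem ev_re (c : ℝ[X]) (n : ℕ) (hn : c.natDegree < n) (t : ℝ) :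
    (ev c (pt t)).re = ∑ k ∈ Finset.range n, c.coeff k * cos (k * t) := by
  rw [ev, aeval_eq_sum_range' hn, Complex.re_sum]
  refine Finset.sum_congr rfl fun k _ => ?_
  rw [Complex.real_smul, Complex.re_ofReal_mul, pt_pow_re]

theorem ev_im (c : ℝ[X]) (n : ℕ) (hn : c.natDegree < n) (t : ℝ) :
    (ev c (pt t)).im = ∑ k ∈ Finset.range n, c.coeff k * sin (k * t) := by
  rw [ev, aeval_eq_sum_range' hn, Complex.im_sum]
  refine Finset.sum_congr rfl fun k _ => ?_
  rw [Complex.real_smul, Complex.im_ofReal_mul, pt_pow_im]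

theorem gq_cos (l : ℕ) (a : ℝ) (c : ℝ[X]) (hc : c.natDegree < 2 * l + 1) (t : ℝ) :
    (gq l a c).eval (cos t) * sin t =
      (ev c (pt t)).re * (sin ((l + 1) * t) + a * sin (l * t))
        - (ev c (pt t)).im * (cos ((l + 1) * t) + a * cos (l * t)) := by
  rw [ev_re c _ hc, ev_im c _ hc, gq, eval_finsetSum, Finset.sum_mul, Finset.sum_mul,
    Finset.sum_mul, ← Finset.sum_sub_distrib]
  refine Finset.sum_congr rfl fun k _ => ?_
  rw [eval_mul, eval_C, eval_add, eval_mul, eval_C, mul_assoc, add_mul, mul_assoc a,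
    Chebyshev.U_real_cos, Chebyshev.U_real_cos]
  push_cast
  have e1 : ((l : ℝ) - k + 1) * t = (l + 1) * t - k * t := by ring
  have e2 : ((l : ℝ) - 1 - k + 1) * t = l * t - k * t := by ring
  rw [e1, e2, sin_sub, sin_sub]
  ring

/-! ### Coefficients of `gq` and of `X * gq - (1/2) Bq` -/

theorem coeff_gq (l : ℕ) (a : ℝ) (c : ℝ[X]) (m : ℕ) :
    (gq l a c).coeff m = ∑ k ∈ Finset.range (2 * l + 1),
      c.coeff k * ((U ℝ ((l : ℤ) - k)).coeff m + a * (U ℝ ((l : ℤ) - 1 - k)).coeff m) := by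
  rw [gq, finsetSum_coeff]
  refine Finset.sum_congr rfl fun k _ => ?_
  rw [coeff_C_mul, coeff_add, coeff_C_mul]

theorem gq_high (l : ℕ) (a : ℝ) (c : ℝ[X]) (h0 : c.coeff 0 = 0) (m : ℕ) (hm : l ≤ m) :
    (gq l a c).coeff m = 0 := by
  rw [coeff_gq]
  refine Finset.sum_eq_zero fun k hk => ?_
  rw [Finset.mem_range] at hk
  rcases Nat.eq_zero_or_pos k with h | h
  · subst h; rw [h0, zero_mul]
  · rw [coeffU_zero _ _ (by omega) (by omega), coeffU_zero _ _ (by omega) (by omega)]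
    ring

theorem gq_degree (l : ℕ) (a : ℝ) (c : ℝ[X]) (h0 : c.coeff 0 = 0) :
    (gq l a c).degree < l := by
  rw [degree_lt_iff_coeff_zero]
  exact fun m hm => gq_high l a c h0 m hm

theorem gq_lead (l : ℕ) (a : ℝ) (c : ℝ[X]) (hl : 1 ≤ l)
    (hc : c.natDegree ≤ 2 * l - 1 ∨ (a = 0 ∧ c.natDegree ≤ 2 * l))
    (h0 : c.coeff 0 = 0) (h1 : c.coeff 1 = 1) :
    (gq l a c).coeff (l - 1) = 2 ^ (l - 1) := by
  rw [coeff_gq, Finset.sum_eq_single 1]
  · have e : ((l : ℤ) - (1 : ℕ)) = ((l - 1 : ℕ) : ℤ) := by omega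
    rw [h1, e, coeffU_self, coeffU_zero _ _ (by omega) (by omega)]
    ring
  · intro k hk hk1
    rw [Finset.mem_range] at hk
    rcases Nat.eq_zero_or_pos k with h | h
    · subst h; rw [h0, zero_mul]
    rw [coeffU_zero _ _ (by omega) (by omega)]
    rcases hc with hc | ⟨ha, hc⟩
    · by_cases hk2 : k ≤ 2 * l - 1
      · rw [coeffU_zero _ _ (by omega) (by omega)]
        ring
      · rw [coeff_eq_zero_of_natDegree_lt (by omega), zero_mul]
    · rw [ha]; ring
  · intro h
    exact absurd (Finset.mem_range.2 (by omega)) h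

theorem Bq_high (l : ℕ) (a : ℝ) (m : ℕ) (hm : l < m) : (Bq l a).coeff m = 0 := by
  rw [Bq, coeff_add, coeff_C_mul, coeffU_zero _ _ (by omega) (by omega),
    coeffU_zero _ _ (by omega) (by omega)]
  ring

theorem Bq_lead (l : ℕ) (a : ℝ) : (Bq l a).coeff l = 2 ^ l := by
  rw [Bq, coeff_add, coeff_C_mul, coeffU_self, coeffU_zero _ _ (by omega) (by omega)]
  ring

/-- Twice `X * U n`. -/
theorem two_X_U (n : ℤ) : 2 * X * U ℝ n = U ℝ (n + 1) + U ℝ (n - 1) := by
  rw [Chebyshev.U_add_one]; ring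

/-- The polynomial `2 X g - B`. -/
noncomputable def fq (l : ℕ) (a : ℝ) (c : ℝ[X]) : ℝ[X] := 2 * X * gq l a c - Bq l a

theorem fq_eq (l : ℕ) (a : ℝ) (c : ℝ[X]) :
    fq l a c = (∑ k ∈ Finset.range (2 * l + 1),
      C (c.coeff k) * (U ℝ ((l : ℤ) - k + 1) + U ℝ ((l : ℤ) - k - 1) +
        C a * (U ℝ ((l : ℤ) - k) + U ℝ ((l : ℤ) - k - 2)))) - Bq l a := by
  rw [fq, gq, Finset.mul_sum]
  congr 1
  refine Finset.sum_congr rfl fun k _ => ?_
  have e1 := two_X_U ((l : ℤ) - k)
  have e2 := two_X_U ((l : ℤ) - 1 - k)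
  have e3 : (l : ℤ) - 1 - k + 1 = (l : ℤ) - k := by ring
  have e4 : (l : ℤ) - 1 - k - 1 = (l : ℤ) - k - 2 := by ring
  rw [e3, e4] at e2
  rw [← e1, ← e2]
  ring

theorem coeff_fq (l : ℕ) (a : ℝ) (c : ℝ[X]) (m : ℕ) :
    (fq l a c).coeff m = (∑ k ∈ Finset.range (2 * l + 1),
      c.coeff k * ((U ℝ ((l : ℤ) - k + 1)).coeff m + (U ℝ ((l : ℤ) - k - 1)).coeff m +
        a * ((U ℝ ((l : ℤ) - k)).coeff m + (U ℝ ((l : ℤ) - k - 2)).coeff m))) -
      (Bq l a).coeff m := by
  rw [fq_eq, coeff_sub, finsetSum_coeff]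
  congr 1
  refine Finset.sum_congr rfl fun k _ => ?_
  rw [coeff_C_mul, coeff_add, coeff_add, coeff_C_mul, coeff_add]


theorem fq_high (l : ℕ) (a : ℝ) (c : ℝ[X]) (hl : 1 ≤ l)
    (hc : c.natDegree ≤ 2 * l - 1 ∨ (a = 0 ∧ c.natDegree ≤ 2 * l))
    (h0 : c.coeff 0 = 0) (h1 : c.coeff 1 = 1) (m : ℕ) (hm : l ≤ m) :
    (fq l a c).coeff m = 0 := by
  obtain ⟨n, rfl⟩ : ∃ n, m = n + 1 := ⟨m - 1, by omega⟩
  have e : (2 * X * gq l a c).coeff (n + 1) = 2 * (gq l a c).coeff n := by
    rw [mul_assoc, show (2 : ℝ[X]) = C 2 by rfl, coeff_C_mul, coeff_X_mul]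
  rw [fq, coeff_sub, e]
  rcases Nat.lt_or_ge l (n + 1) with h | h
  · rw [gq_high l a c h0 n (by omega), Bq_high l a _ h]; ring
  · have hn : l = n + 1 := by omega
    have hn' : n = l - 1 := by omega
    rw [← hn, hn', gq_lead l a c hl hc h0 h1, Bq_lead]
    obtain ⟨j, rfl⟩ : ∃ j, l = j + 1 := ⟨l - 1, by omega⟩
    simp only [Nat.add_sub_cancel, pow_succ]
    ring

theorem fq_degree (l : ℕ) (a : ℝ) (c : ℝ[X]) (hl : 1 ≤ l)
    (hc : c.natDegree ≤ 2 * l - 1 ∨ (a = 0 ∧ c.natDegree ≤ 2 * l))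
    (h0 : c.coeff 0 = 0) (h1 : c.coeff 1 = 1) : (fq l a c).degree < l := by
  rw [degree_lt_iff_coeff_zero]
  exact fun m hm => fq_high l a c hl hc h0 h1 m hm

theorem fq_coeff (l : ℕ) (a : ℝ) (c : ℝ[X]) (hl : 1 ≤ l)
    (hc : c.natDegree ≤ 2 * l - 1) (h0 : c.coeff 0 = 0) (h1 : c.coeff 1 = 1) :
    (fq l a c).coeff (l - 1) = 2 ^ (l - 1) * (c.coeff 2 - a * c.coeff (2 * l - 1)) := by
  rcases Nat.lt_or_ge l 2 with hl2 | hl2
  · have hl1 : l = 1 := by omega
    subst hl1
    have hc2 : c.coeff 2 = 0 := coeff_eq_zero_of_natDegree_lt (by omega)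
    have e : (2 * X * gq 1 a c).coeff 0 = 0 := by
      rw [mul_assoc, show (2 : ℝ[X]) = C 2 by rfl, coeff_C_mul, coeff_X_mul_zero, mul_zero]
    have hU1 : (U ℝ ((1 : ℕ) : ℤ)).coeff 0 = 0 := by
      rw [Nat.cast_one, Chebyshev.U_one, show (2 : ℝ[X]) = C 2 by rfl, coeff_C_mul, coeff_X_zero,
        mul_zero]
    have hU0 : (U ℝ (((1 : ℕ) : ℤ) - 1)).coeff 0 = 1 := by
      rw [Nat.cast_one, sub_self, Chebyshev.U_zero, coeff_one_zero]
    simp only [Nat.sub_self, pow_zero, one_mul, Nat.mul_one, Nat.add_one_sub_one]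
    rw [fq, coeff_sub, e, Bq, coeff_add, coeff_C_mul, hU1, hU0, hc2, h1]
    ring
  · rw [coeff_fq]
    have hterm : ∀ k ∈ Finset.range (2 * l + 1),
        c.coeff k * ((U ℝ ((l : ℤ) - k + 1)).coeff (l - 1) + (U ℝ ((l : ℤ) - k - 1)).coeff (l - 1) +
          a * ((U ℝ ((l : ℤ) - k)).coeff (l - 1) + (U ℝ ((l : ℤ) - k - 2)).coeff (l - 1))) =
        (if k = 1 then (Bq l a).coeff (l - 1) else 0) +
        (if k = 2 then 2 ^ (l - 1) * c.coeff 2 else 0) +
        (if k = 2 * l - 1 then - (2 ^ (l - 1) * (a * c.coeff (2 * l - 1))) else 0) := by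
      intro k hk
      rw [Finset.mem_range] at hk
      have hcases : k = 0 ∨ k = 1 ∨ k = 2 ∨ k = 2 * l - 1 ∨ k = 2 * l ∨ (3 ≤ k ∧ k ≤ 2 * l - 2) := by
        omega
      rcases hcases with h | h | h | h | h | h
      · subst h
        rw [if_neg (by omega), if_neg (by omega), if_neg (by omega), h0]; ring
      · subst h
        have e : ((l : ℤ) - (1 : ℕ)) = ((l - 1 : ℕ) : ℤ) := by omega
        have e2 : (l : ℤ) - (1 : ℕ) + 1 = l := by push_cast; ring
        have z1 : (U ℝ (((l - 1 : ℕ) : ℤ) - 1)).coeff (l - 1) = 0 :=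
          coeffU_zero _ _ (by omega) (by omega)
        have z2 : (U ℝ (((l - 1 : ℕ) : ℤ) - 2)).coeff (l - 1) = 0 :=
          coeffU_zero _ _ (by omega) (by omega)
        rw [if_pos rfl, if_neg (by omega), if_neg (by omega), h1, e2, e, coeffU_self, z1, z2, Bq,
          coeff_add, coeff_C_mul]
        have e3 : ((l : ℤ) - 1) = ((l - 1 : ℕ) : ℤ) := by omega
        rw [e3, coeffU_self]
        ring
      · subst h
        have e2 : (l : ℤ) - (2 : ℕ) + 1 = ((l - 1 : ℕ) : ℤ) := by omega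
        rw [if_neg (by omega), if_pos rfl, if_neg (by omega), e2, coeffU_self,
          coeffU_zero _ _ (by omega) (by omega), coeffU_zero _ _ (by omega) (by omega),
          coeffU_zero _ _ (by omega) (by omega)]
        ring
      · subst h
        have e2 : (l : ℤ) - ((2 * l - 1 : ℕ) : ℤ) - 2 = -((l - 1 : ℕ) : ℤ) - 2 := by omega
        rw [if_neg (by omega), if_neg (by omega), if_pos rfl, e2, coeffU_neg,
          coeffU_zero _ _ (by omega) (by omega), coeffU_zero _ _ (by omega) (by omega),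
          coeffU_zero _ _ (by omega) (by omega)]
        ring
      · subst h
        rw [if_neg (by omega), if_neg (by omega), if_neg (by omega),
          coeff_eq_zero_of_natDegree_lt (by omega)]
        ring
      · rw [if_neg (by omega), if_neg (by omega), if_neg (by omega),
          coeffU_zero _ _ (by omega) (by omega), coeffU_zero _ _ (by omega) (by omega),
          coeffU_zero _ _ (by omega) (by omega), coeffU_zero _ _ (by omega) (by omega)]
        ring
    rw [Finset.sum_congr rfl hterm, Finset.sum_add_distrib, Finset.sum_add_distrib,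
      Finset.sum_ite_eq', Finset.sum_ite_eq', Finset.sum_ite_eq', if_pos, if_pos, if_pos]
    · ring
    · exact Finset.mem_range.2 (by omega)
    · exact Finset.mem_range.2 (by omega)
    · exact Finset.mem_range.2 (by omega)

/-! ### The nodes -/

/-- The separating points. -/
noncomputable def sp (l i : ℕ) : ℝ := (2 * i + 1) * π / (2 * l + 1)

theorem sp_pos (l i : ℕ) : 0 < sp l i := by
  have := pi_pos
  unfold sp; positivity

theorem sp_lt (l i : ℕ) : sp l i < sp l (i + 1) := by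
  unfold sp
  have := pi_pos
  push_cast
  gcongr
  linarith

theorem sp_le_pi (l i : ℕ) (h : i ≤ l) : sp l i ≤ π := by
  unfold sp
  have h' : (i : ℝ) ≤ l := by exact_mod_cast h
  rw [div_le_iff₀ (by positivity)]
  have := pi_pos
  nlinarith

theorem sp_lt_pi (l i : ℕ) (h : i < l) : sp l i < π :=
  lt_of_lt_of_le (sp_lt l i) (sp_le_pi l (i + 1) h)

theorem sp_last (l : ℕ) : sp l l = π := by
  unfold sp
  have : (2 * (l : ℝ) + 1) ≠ 0 := by positivity
  field_simp

theorem Bq_sign (l : ℕ) (a : ℝ) (ha0 : 0 ≤ a) (ha1 : a ≤ 1) (i : ℕ) (hi : i ≤ l) :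
    0 < (-1) ^ i * (Bq l a).eval (cos (sp l i)) := by
  rcases Nat.lt_or_ge i l with h | h
  · have hs : 0 < sin (sp l i) := sin_pos_of_pos_of_lt_pi (sp_pos l i) (sp_lt_pi l i h)
    have hc : 0 < cos (sp l i / 2) := by
      apply cos_pos_of_mem_Ioo
      have := sp_pos l i
      have := sp_lt_pi l i h
      constructor <;> linarith
    have key := Bq_cos l a (sp l i)
    have hl : (2 * (l : ℝ) + 1) ≠ 0 := by positivity
    have hmid : ((l : ℝ) + 1 / 2) * sp l i = i * π + π / 2 := by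
      unfold sp; field_simp
    have h1 : ((l : ℝ) + 1) * sp l i = (i * π + π / 2) + sp l i / 2 := by rw [← hmid]; ring
    have h2 : (l : ℝ) * sp l i = (i * π + π / 2) - sp l i / 2 := by rw [← hmid]; ring
    have e1 : sin ((i : ℝ) * π + π / 2) = (-1) ^ i := by
      rw [sin_add_pi_div_two, cos_nat_mul_pi]
    have e2 : cos ((i : ℝ) * π + π / 2) = 0 := by
      rw [cos_add_pi_div_two, sin_nat_mul_pi, neg_zero]
    rw [h1, h2, sin_add, sin_sub, e1, e2] at key
    have hsq : ((-1 : ℝ) ^ i) * (-1) ^ i = 1 := by rw [← mul_pow]; norm_num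
    have : ((-1) ^ i * (Bq l a).eval (cos (sp l i))) * sin (sp l i) =
        (1 + a) * cos (sp l i / 2) := by
      rw [mul_assoc, key]
      linear_combination (1 + a) * cos (sp l i / 2) * hsq
    have hpos : 0 < ((-1) ^ i * (Bq l a).eval (cos (sp l i))) * sin (sp l i) := by
      rw [this]; positivity
    exact (pos_iff_pos_of_mul_pos hpos).2 hs
  · have hil : i = l := by omega
    subst hil
    rw [sp_last, cos_pi, Bq, eval_add, eval_mul, eval_C, Chebyshev.U_eval_neg_one,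
      Chebyshev.U_eval_neg_one]
    have e : (((i : ℤ) - 1).negOnePow : ℤ) = -((i : ℤ).negOnePow : ℤ) := by
      rw [Int.negOnePow_sub, Int.negOnePow_one]; push_cast; ring
    have e' : ((i : ℤ).negOnePow : ℤ) = (-1) ^ i := by
      rw [Int.negOnePow_def]; simp
    rw [e, e']
    push_cast
    have hsq : ((-1 : ℝ) ^ i) * (-1) ^ i = 1 := by rw [← mul_pow]; norm_num
    have : (-1 : ℝ) ^ i * ((-1) ^ i * ((i : ℝ) + 1) + a * (-(-1) ^ i * ((i : ℝ) - 1 + 1))) =
        (i + 1 - a * i) := by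
      linear_combination ((i : ℝ) + 1 - a * i) * hsq
    rw [this]
    have : a * i ≤ 1 * i := by gcongr
    linarith

theorem exists_node (l : ℕ) (a : ℝ) (ha0 : 0 ≤ a) (ha1 : a ≤ 1) (i : ℕ) (hi : i < l) :
    ∃ t ∈ Ioo (sp l i) (sp l (i + 1)), (Bq l a).eval (cos t) = 0 := by
  have h1 := Bq_sign l a ha0 ha1 i hi.le
  have h2 := Bq_sign l a ha0 ha1 (i + 1) hi
  have hcont : Continuous fun t : ℝ => (-1 : ℝ) ^ i * (Bq l a).eval (cos t) :=
    continuous_const.mul ((Bq l a).continuous.comp continuous_cos)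
  have h3 : (-1 : ℝ) ^ i * (Bq l a).eval (cos (sp l (i + 1))) < 0 := by
    rw [pow_succ] at h2
    linarith
  obtain ⟨t, ht, hz⟩ := intermediate_value_Ioo' (sp_lt l i).le hcont.continuousOn ⟨h3, h1⟩
  refine ⟨t, ht, ?_⟩
  have hne : ((-1 : ℝ) ^ i) ≠ 0 := pow_ne_zero _ (by norm_num)
  exact (mul_eq_zero.1 hz).resolve_left hne


/-- Derivative of `B(t)`. -/
theorem Bq_deriv (l : ℕ) (a t : ℝ) :
    (derivative (Bq l a)).eval (cos t) * (-sin t) * sin t + (Bq l a).eval (cos t) * cos t =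
      cos ((l + 1) * t) * (l + 1) + a * (cos (l * t) * l) := by
  have h1 : HasDerivAt (fun t : ℝ => (Bq l a).eval (cos t) * sin t)
      ((derivative (Bq l a)).eval (cos t) * (-sin t) * sin t + (Bq l a).eval (cos t) * cos t) t :=
    (((Bq l a).hasDerivAt (cos t)).comp t (hasDerivAt_cos t)).mul (hasDerivAt_sin t)
  have h2 : HasDerivAt (fun t : ℝ => sin ((l + 1) * t) + a * sin (l * t))
      (cos ((l + 1) * t) * (l + 1) + a * (cos (l * t) * l)) t := by
    have e1 : HasDerivAt (fun t : ℝ => ((l : ℝ) + 1) * t) ((l : ℝ) + 1) t := by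
      simpa using (hasDerivAt_id t).const_mul ((l : ℝ) + 1)
    have e2 : HasDerivAt (fun t : ℝ => (l : ℝ) * t) (l : ℝ) t := by
      simpa using (hasDerivAt_id t).const_mul (l : ℝ)
    exact e1.sin.add (e2.sin.const_mul a)
  have h3 : (fun t : ℝ => (Bq l a).eval (cos t) * sin t) =
      fun t : ℝ => sin ((l + 1) * t) + a * sin (l * t) := by
    funext s; exact Bq_cos l a s
  rw [h3] at h1
  exact h1.unique h2

/-- The algebra at a node: `A` and `B'` have the same sign. -/
theorem node_alg (l : ℕ) (a t : ℝ) (ha0 : 0 ≤ a) (ha1 : a ≤ 1) (hs : 0 < sin t)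
    (hB : sin ((l + 1) * t) + a * sin (l * t) = 0) (v g : ℝ) (hv : 0 ≤ v)
    (hg : g * sin t = - (v * (cos ((l + 1) * t) + a * cos (l * t)))) (d : ℝ)
    (hd : d * (-sin t) * sin t = cos ((l + 1) * t) * (l + 1) + a * (cos (l * t) * l)) :
    0 ≤ g / d := by
  set S := sin t with hS
  set Y := cos t with hY
  set p := sin (l * t) with hp
  set q := cos (l * t) with hq
  have hSY : S ^ 2 + Y ^ 2 = 1 := sin_sq_add_cos_sq t
  have hpq : p ^ 2 + q ^ 2 = 1 := sin_sq_add_cos_sq (l * t)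
  have e1 : sin (((l : ℝ) + 1) * t) = p * Y + q * S := by
    rw [add_mul, one_mul, sin_add]
  have e2 : cos (((l : ℝ) + 1) * t) = q * Y - p * S := by
    rw [add_mul, one_mul, cos_add]
  rw [e1] at hB
  rw [e2] at hg hd
  have hl : (0 : ℝ) ≤ l := Nat.cast_nonneg l
  have hY1 : -1 < Y := by nlinarith
  have hp0 : p ≠ 0 := by
    intro h0
    rw [h0] at hB hpq
    have : q * S = 0 := by linarith
    rcases mul_eq_zero.1 this with h | h
    · rw [h] at hpq; norm_num at hpq
    · exact hs.ne' h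
  have hqS : q * S = -(a + Y) * p := by linear_combination hB
  -- `S * A` and `S * B'`
  set W := 1 + a ^ 2 + 2 * a * Y with hW
  have hWpos : 0 ≤ W := by nlinarith
  have hV : 0 < 1 + a * Y := by nlinarith
  have hgS : g * S ^ 2 = v * p * W := by
    have : g * S ^ 2 = (g * S) * S := by ring
    rw [this, hg, hW]
    linear_combination (-v * (Y + a)) * hqS + (v * p) * hSY
  have hdS : d * S ^ 3 = p * (l * W + (1 + a * Y)) := by
    have : d * S ^ 3 = -(d * (-S) * S) * S := by ring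
    rw [this, hd, hW]
    linear_combination (-(Y * (l + 1)) - a * l) * hqS + (p * (l + 1)) * hSY
  have hquot : g / d = v * W * S / (l * W + (1 + a * Y)) := by
    have hden : 0 < l * W + (1 + a * Y) := by positivity
    have hd0 : d ≠ 0 := by
      intro h0
      rw [h0, zero_mul] at hdS
      exact (mul_ne_zero hp0 hden.ne') hdS.symm
    rw [div_eq_div_iff hd0 hden.ne']
    have hS0 : S ≠ 0 := hs.ne'
    have hSp : p * S ^ 2 ≠ 0 := mul_ne_zero hp0 (pow_ne_zero _ hS0)
    apply mul_left_cancel₀ hSp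
    calc p * S ^ 2 * (g * (l * W + (1 + a * Y)))
        = (g * S ^ 2) * (p * (l * W + (1 + a * Y))) := by ring
      _ = (v * p * W) * (d * S ^ 3) := by rw [hgS, hdS]
      _ = p * S ^ 2 * (v * W * S * d) := by ring
  rw [hquot]
  positivity

/-- The quadrature data. -/
theorem quad (l : ℕ) (a : ℝ) (c : ℝ[X]) (hl : 1 ≤ l) (ha0 : 0 ≤ a) (ha1 : a ≤ 1)
    (hc : c.natDegree ≤ 2 * l - 1 ∨ (a = 0 ∧ c.natDegree ≤ 2 * l))
    (h0 : c.coeff 0 = 0) (h1 : c.coeff 1 = 1) (hTR : TR c) :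
    ∃ t μ : ℕ → ℝ, (∀ i < l, t i ∈ Ioo 0 π ∧
        sin ((l + 1) * t i) + a * sin (l * t i) = 0 ∧ 0 ≤ μ i) ∧
      ∑ i ∈ Finset.range l, μ i = 1 / 2 ∧
      (c.natDegree ≤ 2 * l - 1 →
        ∑ i ∈ Finset.range l, μ i * cos (t i) = (c.coeff 2 - a * c.coeff (2 * l - 1)) / 4) ∧
      ∀ y : ℝ, (∀ i < l, y ≠ cos (t i)) →
        (gq l a c).eval y = (Bq l a).eval y * ∑ i ∈ Finset.range l, μ i * (y - cos (t i))⁻¹ := by
  classical
  choose! t ht using fun (i : ℕ) (hi : i < l) => exists_node l a ha0 ha1 i hi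
  have hmono : StrictMono (sp l) := strictMono_nat_of_lt_succ (sp_lt l)
  have htI : ∀ i < l, t i ∈ Ioo 0 π := by
    intro i hi
    obtain ⟨⟨h2, h3⟩, -⟩ := ht i hi
    exact ⟨(sp_pos l i).trans h2, h3.trans_le (sp_le_pi l (i + 1) hi)⟩
  have htlt : ∀ i j, i < j → j < l → t i < t j := by
    intro i j hij hj
    obtain ⟨⟨-, h3⟩, -⟩ := ht i (hij.trans hj)
    obtain ⟨⟨h4, -⟩, -⟩ := ht j hj
    exact (h3.trans_le (hmono.monotone hij)).trans h4
  set x : ℕ → ℝ := fun i => cos (t i) with hx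
  have hinj : Set.InjOn x (Finset.range l : Finset ℕ) := by
    intro i hi j hj hij
    rw [Finset.mem_coe, Finset.mem_range] at hi hj
    have : t i = t j := injOn_cos (Ioo_subset_Icc_self (htI i hi)) (Ioo_subset_Icc_self (htI j hj)) hij
    rcases lt_trichotomy i j with h | h | h
    · exact absurd this (htlt i j h hj).ne
    · exact h
    · exact absurd this (htlt j i h hi).ne'
  set N := Lagrange.nodal (Finset.range l) x with hN
  have hNdeg : N.natDegree = l := by
    rw [hN, Lagrange.natDegree_nodal, Finset.card_range]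
  have hNmon : N.Monic := Lagrange.nodal_monic
  have hBN : Bq l a = C (2 ^ l) * N := by
    have hz : Bq l a - C (2 ^ l) * N = 0 := by
      refine Polynomial.eq_zero_of_degree_lt_of_eval_index_eq_zero (Finset.range l) hinj ?_ ?_
      · rw [Finset.card_range, degree_lt_iff_coeff_zero]
        intro m hm
        rw [coeff_sub, coeff_C_mul]
        rcases Nat.lt_or_ge l m with h | h
        · rw [Bq_high l a m h, coeff_eq_zero_of_natDegree_lt (by omega)]; ring
        · have : m = l := by omega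
          subst this
          have : N.coeff m = 1 := by
            have := hNmon.coeff_natDegree
            rwa [hNdeg] at this
          rw [Bq_lead, this]; ring
      · intro i hi
        rw [eval_sub, eval_mul, hN, Lagrange.eval_nodal_at_node hi, mul_zero, sub_zero]
        exact (ht i (Finset.mem_range.1 hi)).2
    exact sub_eq_zero.1 hz
  set w : ℕ → ℝ := fun i => Lagrange.nodalWeight (Finset.range l) x i with hw
  set g := gq l a c with hg
  have h2l : (2 : ℝ) ^ l ≠ 0 := pow_ne_zero _ two_ne_zero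
  have hcdeg : c.natDegree < 2 * l + 1 := by
    rcases hc with h | ⟨-, h⟩ <;> omega
  have hsum : ∀ P : ℝ[X], P.degree < l →
      P.coeff (l - 1) = ∑ i ∈ Finset.range l, w i * P.eval (x i) := by
    intro P hP
    have := Lagrange.coeff_eq_sum (s := Finset.range l) (v := x) hinj (P := P)
      (by rwa [Finset.card_range])
    rw [Finset.card_range] at this
    rw [this]
    refine Finset.sum_congr rfl fun i _ => ?_
    rw [hw]
    simp only [Lagrange.nodalWeight, Finset.prod_inv_distrib]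
    rw [div_eq_mul_inv, mul_comm]
  have hgdeg : g.degree < l := gq_degree l a c h0
  refine ⟨t, fun i => w i * g.eval (x i) / 2 ^ l, ?_, ?_, ?_, ?_⟩
  · intro i hi
    have hti := htI i hi
    have hsin : 0 < sin (t i) := sin_pos_of_pos_of_lt_pi hti.1 hti.2
    have hB0 : (Bq l a).eval (cos (t i)) = 0 := (ht i hi).2
    have hB : sin ((l + 1) * t i) + a * sin (l * t i) = 0 := by
      rw [← Bq_cos, hB0, zero_mul]
    refine ⟨hti, hB, ?_⟩
    have hgc := gq_cos l a c hcdeg (t i)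
    rw [hB, mul_zero, zero_sub] at hgc
    have hdc := Bq_deriv l a (t i)
    rw [hB0, zero_mul, add_zero] at hdc
    have key := node_alg l a (t i) ha0 ha1 hsin hB _ _ (hTR (t i) hti) hgc _ hdc
    have hwi : w i = ((derivative N).eval (x i))⁻¹ := by
      rw [hw, hN]
      exact Lagrange.nodalWeight_eq_eval_derivative_nodal (Finset.mem_range.2 hi)
    have : w i * g.eval (x i) / 2 ^ l = g.eval (x i) / (derivative (Bq l a)).eval (x i) := by
      rw [hwi, hBN, derivative_C_mul, eval_mul, eval_C, div_mul_eq_div_div, div_eq_mul_inv,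
        div_eq_mul_inv, div_eq_mul_inv]
      ring
    change 0 ≤ w i * g.eval (x i) / 2 ^ l
    rw [this]
    exact key
  · have := hsum g hgdeg
    rw [hg, gq_lead l a c hl hc h0 h1, ← hg] at this
    rw [← Finset.sum_div, ← this]
    obtain ⟨j, rfl⟩ : ∃ j, l = j + 1 := ⟨l - 1, by omega⟩
    simp only [Nat.add_sub_cancel, pow_succ]
    have : (2 : ℝ) ^ j ≠ 0 := pow_ne_zero _ two_ne_zero
    field_simp
  · intro hc'
    have := hsum (fq l a c) (fq_degree l a c hl hc h0 h1)
    rw [fq_coeff l a c hl hc' h0 h1] at this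
    have h3 : ∀ i ∈ Finset.range l, w i * (fq l a c).eval (x i) =
        2 ^ (l + 1) * (w i * g.eval (x i) / 2 ^ l * cos (t i)) := by
      intro i hi
      have hB0 : (Bq l a).eval (x i) = 0 := (ht i (Finset.mem_range.1 hi)).2
      rw [fq, eval_sub, hB0, sub_zero, eval_mul, eval_mul, eval_X, pow_succ, ← hg]
      have : (2 : ℝ[X]).eval (x i) = 2 := by
        rw [show (2 : ℝ[X]) = C 2 by rfl, eval_C]
      have hxi : x i = cos (t i) := rfl
      rw [this, ← hxi]
      field_simp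
    rw [Finset.sum_congr rfl h3, ← Finset.mul_sum] at this
    obtain ⟨j, rfl⟩ : ∃ j, l = j + 1 := ⟨l - 1, by omega⟩
    simp only [Nat.add_sub_cancel] at this ⊢
    have h2j : (2 : ℝ) ^ j ≠ 0 := pow_ne_zero _ two_ne_zero
    apply mul_left_cancel₀ (mul_ne_zero (four_ne_zero : (4 : ℝ) ≠ 0) h2j)
    have e : (4 : ℝ) * 2 ^ j = 2 ^ (j + 1 + 1) := by rw [pow_succ, pow_succ]; ring
    rw [e, ← this, ← e]
    ring
  · intro y hy
    have hy' : ∀ i ∈ Finset.range l, y ≠ x i := fun i hi => hy i (Finset.mem_range.1 hi)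
    have hint : g = Lagrange.interpolate (Finset.range l) x fun i => g.eval (x i) :=
      Lagrange.eq_interpolate hinj (by rwa [Finset.card_range])
    have h4 := Lagrange.eval_interpolate_not_at_node (s := Finset.range l) (v := x)
      (fun i => g.eval (x i)) hy'
    rw [← hint] at h4
    rw [h4, hBN, eval_mul, eval_C, Finset.mul_sum, Finset.mul_sum]
    refine Finset.sum_congr rfl fun i _ => ?_
    have hxi : cos (t i) = x i := rfl
    have hwi : Lagrange.nodalWeight (Finset.range l) x i = w i := rfl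
    rw [hxi, hwi, ← hN]
    field_simp

theorem TN : TargetTN := by
  intro l a τ ε c hl ha0 ha1 hc h0 h1 hTR hτ0 hτ hBτ hε0 hε hBε hcc
  obtain ⟨t, μ, hnode, hsum, -, hval⟩ := quad l a c hl ha0 ha1 hc h0 h1 hTR
  have hcdeg : c.natDegree < 2 * l + 1 := by
    rcases hc with h | ⟨-, h⟩ <;> omega
  have hrefl1 : ∀ s : ℝ, sin ((l + 1) * (π - s)) = (-1) ^ l * sin ((l + 1) * s) := by
    intro s
    have : ((l : ℝ) + 1) * (π - s) = ((l + 1 : ℕ) : ℝ) * π - (l + 1) * s := by push_cast; ring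
    rw [this, sin_sub, sin_nat_mul_pi, cos_nat_mul_pi, pow_succ]
    ring
  have hrefl2 : ∀ s : ℝ, sin (l * (π - s)) = -(-1) ^ l * sin (l * s) := by
    intro s
    rw [mul_sub, sin_sub, sin_nat_mul_pi, cos_nat_mul_pi]
    ring
  have hrefl3 : ∀ s : ℝ, cos ((l + 1) * (π - s)) = -(-1) ^ l * cos ((l + 1) * s) := by
    intro s
    have : ((l : ℝ) + 1) * (π - s) = ((l + 1 : ℕ) : ℝ) * π - (l + 1) * s := by push_cast; ring
    rw [this, cos_sub, sin_nat_mul_pi, cos_nat_mul_pi, pow_succ]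
    ring
  have hrefl4 : ∀ s : ℝ, cos (l * (π - s)) = (-1) ^ l * cos (l * s) := by
    intro s
    rw [mul_sub, cos_sub, sin_nat_mul_pi, cos_nat_mul_pi]
    ring
  have hsq : ((-1 : ℝ) ^ l) * (-1) ^ l = 1 := by rw [← mul_pow]; norm_num
  have hne : ((-1 : ℝ) ^ l) ≠ 0 := pow_ne_zero _ (by norm_num)
  -- nodes are at least `τ`
  have hcosle : ∀ i < l, cos (t i) ≤ cos τ := by
    intro i hi
    obtain ⟨hti, hB, -⟩ := hnode i hi
    have : τ ≤ t i := by
      by_contra hlt
      push Not at hlt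
      exact (hBτ (t i) ⟨hti.1, hlt⟩).ne' hB
    exact cos_le_cos_of_nonneg_of_le_pi hτ0.le hti.2.le this
  -- nodes are smaller than `π - ε`
  have hcosgt : ∀ i < l, -cos ε < cos (t i) := by
    intro i hi
    obtain ⟨hti, hB, -⟩ := hnode i hi
    have hlt : t i < π - ε := by
      by_contra hlt
      push Not at hlt
      have hmem : π - t i ∈ Ioc 0 ε := ⟨by linarith [hti.2], by linarith⟩
      have h5 := hBε _ hmem
      have h6 : sin ((l + 1) * t i) + a * sin (l * t i) =
          (-1) ^ l * (sin ((l + 1) * (π - t i)) - a * sin (l * (π - t i))) := by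
        have e1 := hrefl1 (π - t i)
        have e2 := hrefl2 (π - t i)
        rw [sub_sub_cancel] at e1 e2
        rw [e1, e2]; ring
      rw [h6] at hB
      exact (mul_ne_zero hne h5.ne') hB
    rw [← cos_pi_sub]
    exact cos_lt_cos_of_nonneg_of_le_pi hti.1.le (by linarith) hlt
  have hv := hval (-cos ε) (fun i hi => (hcosgt i hi).ne)
  set Bt := sin ((l + 1) * ε) - a * sin (l * ε) with hBt
  set At := cos ((l + 1) * ε) - a * cos (l * ε) with hAt
  have hBtpos : 0 < Bt := hBε ε ⟨hε0, le_refl _⟩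
  have hg := gq_cos l a c hcdeg (π - ε)
  have hb := Bq_cos l a (π - ε)
  rw [hrefl1, hrefl2, hrefl3, hrefl4, cos_pi_sub, sin_pi_sub] at hg
  rw [hrefl1, hrefl2, cos_pi_sub, sin_pi_sub] at hb
  set u := (ev c (pt (π - ε))).re with hu
  set v := (ev c (pt (π - ε))).im with hv'
  set Sg := ∑ i ∈ Finset.range l, μ i * (-cos ε - cos (t i))⁻¹ with hSg
  have hmain : u * Bt + v * At = Bt * Sg := by
    apply mul_left_cancel₀ hne
    have e1 : (gq l a c).eval (-cos ε) * sin ε = (-1) ^ l * (u * Bt + v * At) := by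
      rw [hg, hBt, hAt]; ring
    have e2 : (Bq l a).eval (-cos ε) * sin ε = (-1) ^ l * Bt := by
      rw [hb, hBt]; ring
    calc (-1) ^ l * (u * Bt + v * At) = (gq l a c).eval (-cos ε) * sin ε := e1.symm
      _ = ((Bq l a).eval (-cos ε) * sin ε) * Sg := by rw [hv]; ring
      _ = (-1) ^ l * (Bt * Sg) := by rw [e2]; ring
  have hbound : 1 / (2 * (cos ε + cos τ)) ≤ -Sg := by
    have e3 : -Sg = ∑ i ∈ Finset.range l, μ i * (cos ε + cos (t i))⁻¹ := by
      rw [hSg, ← Finset.sum_neg_distrib]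
      refine Finset.sum_congr rfl fun i _ => ?_
      rw [← mul_neg, ← inv_neg]
      congr 2
      ring
    have e4 : 1 / (2 * (cos ε + cos τ)) =
        ∑ i ∈ Finset.range l, μ i * (cos ε + cos τ)⁻¹ := by
      rw [← Finset.sum_mul, hsum]
      rw [one_div, mul_inv]; ring
    rw [e3, e4]
    refine Finset.sum_le_sum fun i hi => ?_
    rw [Finset.mem_range] at hi
    have hpos : 0 < cos ε + cos (t i) := by linarith [hcosgt i hi]
    have hle : cos ε + cos (t i) ≤ cos ε + cos τ := by linarith [hcosle i hi]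
    exact mul_le_mul_of_nonneg_left (inv_anti₀ hpos hle) (hnode i hi).2.2
  have : Bt / (2 * (cos ε + cos τ)) = Bt * (1 / (2 * (cos ε + cos τ))) := by
    rw [mul_one_div]
  rw [this]
  calc Bt * (1 / (2 * (cos ε + cos τ))) ≤ Bt * (-Sg) := mul_le_mul_of_nonneg_left hbound hBtpos.le
    _ = -u * Bt - v * At := by rw [mul_neg, ← hmain]; ring

theorem TN2 : TargetTN2 := by
  intro l a τ c hl ha0 ha1 hc h0 h1 hTR hτ0 hτ hBτ
  obtain ⟨t, μ, hnode, hsum, hx, -⟩ := quad l a c hl ha0 ha1 (Or.inl hc) h0 h1 hTR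
  have hcosle : ∀ i < l, cos (t i) ≤ cos τ := by
    intro i hi
    obtain ⟨hti, hB, -⟩ := hnode i hi
    have : τ ≤ t i := by
      by_contra hlt
      push Not at hlt
      exact (hBτ (t i) ⟨hti.1, hlt⟩).ne' hB
    exact cos_le_cos_of_nonneg_of_le_pi hτ0.le hti.2.le this
  have hle : ∑ i ∈ Finset.range l, μ i * cos (t i) ≤ ∑ i ∈ Finset.range l, μ i * cos τ :=
    Finset.sum_le_sum fun i hi =>
      mul_le_mul_of_nonneg_left (hcosle i (Finset.mem_range.1 hi))
        (hnode i (Finset.mem_range.1 hi)).2.2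
  rw [hx hc, ← Finset.sum_mul, hsum] at hle
  linarith

end Pool.Agent.H69.KP
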